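import Mathlib
import Pool.Agent.Helper902.RenA
import Pool.Agent.Helper902.RenB
import Pool.Agent.Helper902.RenC
import Pool.Agent.Helper902.RenMain

set_option autoImplicit false
set_option maxSynthPendingDepth 3

open Filter Topology

namespace Pool.Agent.Results.MP_af317d_an.RenormNonRNP

open Pool.Agent.Helper902.Ren

universe u v

/-- A set `D` of a real normed space is dentable if for every `ε > 0` there is `x ∈ D` that does not
lie in the closed convex hull of `D \ {y : ‖y - x‖ < ε}`. -/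
def Dentable {X : Type u} [NormedAddCommGroup X] [NormedSpace ℝ X] (D : Set X) : Prop :=
  ∀ ε : ℝ, 0 < ε → ∃ x ∈ D, x ∉ closure (convexHull ℝ (D \ {y | ‖y - x‖ < ε}))

/-- `X` has the Radon-Nikodym property: every nonempty closed bounded convex subset is dentable. -/
def HasRNP (X : Type u) [NormedAddCommGroup X] [NormedSpace ℝ X] : Prop :=
  ∀ C : Set X, C.Nonempty → IsClosed C → Bornology.IsBounded C → Convex ℝ C → Dentable C

/-- `NA(Y, Y)`: the bounded operators on `Y` that attain their norm on the unit sphere. -/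
def NA (𝕜 : Type v) [RCLike 𝕜] (Y : Type u) [NormedAddCommGroup Y] [NormedSpace 𝕜 Y] :
    Set (Y →L[𝕜] Y) :=
  {T | ∃ y : Y, ‖y‖ = 1 ∧ ‖T y‖ = ‖T‖}

section synonym

variable {𝕜 : Type v} [RCLike 𝕜] {X : Type u} [NormedAddCommGroup X] [NormedSpace 𝕜 X]
  [NormedSpace ℝ X] [IsScalarTower ℝ 𝕜 X]

/-- the renormed space -/
def RS (_D : Dat 𝕜 X) : Type u := X

variable (D : Dat 𝕜 X)

instance : AddCommGroup (RS D) := inferInstanceAs (AddCommGroup X)
instance : Module 𝕜 (RS D) := inferInstanceAs (Module 𝕜 X)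

/-- the identity map onto the renormed space -/
def idE : X ≃ₗ[𝕜] RS D := LinearEquiv.refl 𝕜 X

noncomputable instance : NormedAddCommGroup (RS D) :=
  AddGroupNorm.toNormedAddCommGroup
    { toFun := fun x => D.N ((idE D).symm x)
      map_zero' := by simp
      add_le' := fun x y => by rw [map_add]; exact map_add_le_add _ _ _
      neg' := fun x => by rw [map_neg, map_neg_eq_map]
      eq_zero_of_map_eq_zero' := fun x hx => by
        have h1 := D.norm_le ((idE D).symm x)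
        change D.N ((idE D).symm x) = 0 at hx
        rw [hx, mul_zero] at h1
        have h2 : (idE D).symm x = 0 := norm_le_zero_iff.1 h1
        exact (LinearEquiv.map_eq_zero_iff _).1 h2 }

theorem RS_norm (x : RS D) : ‖x‖ = D.N ((idE D).symm x) := rfl

noncomputable instance : NormedSpace 𝕜 (RS D) where
  norm_smul_le c x := by
    rw [RS_norm, RS_norm, map_smul, map_smul_eq_mul]

/-- the identity as an isomorphism onto the renormed space -/
noncomputable def eqv : X ≃L[𝕜] RS D :=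
  LinearEquiv.toContinuousLinearEquivOfBounds (idE D) 5 2
    (fun x => by rw [RS_norm, LinearEquiv.symm_apply_apply]; exact D.N_le x)
    (fun x => D.norm_le _)

theorem eqv_norm (x : X) : ‖eqv D x‖ = D.N x := by
  rw [RS_norm]; rfl

end synonym

theorem exists_data {𝕜 : Type v} [RCLike 𝕜] {X : Type u} [NormedAddCommGroup X] [NormedSpace 𝕜 X]
    [NormedSpace ℝ X] [IsScalarTower ℝ 𝕜 X] (hX : ¬ HasRNP X) :
    ∃ (D : Dat 𝕜 X) (ε : ℝ), 0 < ε ∧ D.W.Nonempty ∧
      (∀ w ∈ D.W, w ∈ closure (convexHull ℝ (D.W \ Metric.ball w ε))) ∧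
      (∀ (w : X) (x x' : ℕ → X) (κ : ℝ), 0 < κ →
        (∀ j, Tendsto (fun n => D.p j (x n)) atTop (𝓝 (D.p j w))) →
        (∀ j, Tendsto (fun n => D.p j (x' n)) atTop (𝓝 (D.p j w))) →
        (∀ j, (∀ a b : X, (D.p j (a + b)) ^ 2 + (D.p j (a - b)) ^ 2 = 2 * ((D.p j a) ^ 2 + (D.p j b) ^ 2)) →
          Tendsto (fun n => D.p j (x n - x' n)) atTop (𝓝 0)) →
        (∀ n, ∃ a ∈ Submodule.span 𝕜 (insert D.u (D.pr '' D.W)), ‖x n - a‖ ≤ κ) →
        ∃ᶠ n in atTop, ‖x n - x' n‖ ≤ 20 * κ) := by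
  unfold HasRNP Dentable at hX
  push Not at hX
  obtain ⟨C, hCne, -, hCb, -, ε₀, hε₀, hC⟩ := hX
  have hC' : ∀ x ∈ C, x ∈ closure (convexHull ℝ (C \ Metric.ball x ε₀)) := by
    intro x hx
    have h1 := hC x hx
    have h2 : {y : X | ‖y - x‖ < ε₀} = Metric.ball x ε₀ := by
      ext y; rw [Metric.mem_ball, dist_eq_norm]; rfl
    rwa [h2] at h1
  obtain ⟨W₀, hW₀C, hW₀c, hW₀n, hW₀⟩ := exists_countable_nondentable C hCne ε₀ hC'
  obtain ⟨M, hM0, hM⟩ : ∃ M > 0, ∀ w ∈ W₀, ‖w‖ ≤ M := by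
    obtain ⟨M, hM0, hM⟩ := (hCb.subset hW₀C).exists_pos_norm_le
    exact ⟨M, hM0, hM⟩
  set r : ℝ := 1 / (2048 * M) with hr
  have hr0 : 0 < r := by positivity
  set W : Set X := (fun x : X => r • x) '' W₀ with hW
  have hWc : W.Countable := hW₀c.image _
  have hWn : W.Nonempty := hW₀n.image _
  have hWb : ∀ w ∈ W, ‖w‖ ≤ 1 / 2048 := by
    rintro _ ⟨w, hw, rfl⟩
    change ‖r • w‖ ≤ _
    rw [norm_smul, Real.norm_of_nonneg hr0.le]
    calc r * ‖w‖ ≤ r * M := mul_le_mul_of_nonneg_left (hM w hw) hr0.le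
      _ = 1 / 2048 := by rw [hr]; field_simp
  have hWd : ∀ w ∈ W, w ∈ closure (convexHull ℝ (W \ Metric.ball w (r * ε₀))) := by
    rintro _ ⟨w, hw, rfl⟩
    have h1 := hW₀ w hw
    have hcont : Continuous fun x : X => r • x := continuous_const_smul r
    have h2 : (fun x : X => r • x) w ∈ closure ((fun x : X => r • x) '' (convexHull ℝ (W₀ \ Metric.ball w ε₀))) :=
      image_closure_subset_closure_image hcont ⟨w, h1, rfl⟩
    have h3 : (fun x : X => r • x) '' (convexHull ℝ (W₀ \ Metric.ball w ε₀))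
        = convexHull ℝ ((fun x : X => r • x) '' (W₀ \ Metric.ball w ε₀)) :=
      (LinearMap.lsmul ℝ X r).image_convexHull _
    rw [h3] at h2
    refine closure_mono (convexHull_mono ?_) h2
    rintro _ ⟨y, ⟨hy, hyb⟩, rfl⟩
    refine ⟨⟨y, hy, rfl⟩, fun hcon => hyb ?_⟩
    rw [Metric.mem_ball, dist_eq_norm] at hcon ⊢
    have h4 : r • y - r • w = r • (y - w) := (smul_sub _ _ _).symm
    change ‖r • y - r • w‖ < r * ε₀ at hcon
    rw [h4, norm_smul, Real.norm_of_nonneg hr0.le] at hcon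
    exact lt_of_mul_lt_mul_left hcon hr0.le
  -- a unit vector
  obtain ⟨z₀, hz₀, -⟩ := exists_ker_ne W hWn (1/2048) hWb (r * ε₀) (by positivity) hWd (0 : X →L[𝕜] 𝕜)
  have hz₀n : 0 < ‖z₀‖ := norm_pos_iff.2 hz₀
  set z : X := ((‖z₀‖ : ℝ) : 𝕜)⁻¹ • z₀ with hz
  have hz1 : ‖z‖ = 1 := by
    rw [hz, norm_smul, norm_inv, RCLike.norm_ofReal, abs_of_pos hz₀n, inv_mul_cancel₀ hz₀n.ne']
  have hzne : ‖z‖ ≠ 0 := by rw [hz1]; exact one_ne_zero
  obtain ⟨g, hg1, hgz⟩ := exists_dual_vector 𝕜 z hzne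
  have hgle : ∀ x, ‖g x‖ ≤ ‖x‖ := fun x => by
    have := g.le_opNorm x
    rwa [hg1, one_mul] at this
  have hgz1 : g z = 1 := by rw [hgz, hz1]; exact RCLike.ofReal_one
  obtain ⟨u₀, hu₀, hgu₀⟩ := exists_ker_ne W hWn (1/2048) hWb (r * ε₀) (by positivity) hWd g
  have hu₀n : 0 < ‖u₀‖ := norm_pos_iff.2 hu₀
  set uu : X := ((2048 * ‖u₀‖⁻¹ : ℝ) : 𝕜) • u₀ with huu
  have hun : ‖uu‖ = 2048 := by
    rw [huu, norm_smul, RCLike.norm_ofReal, abs_of_pos (by positivity), mul_assoc, inv_mul_cancel₀ hu₀n.ne',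
      mul_one]
  have hgu : g uu = 0 := by rw [huu, map_smul, hgu₀, smul_zero]
  obtain ⟨p, hp0, hple, hpC⟩ := exists_seminorms (𝕜 := 𝕜) (insert uu ((fun x : X => x - g x • z) '' W))
    ((hWc.image _).insert _)
  exact ⟨{ p := p, p0 := hp0, ple := hple, g := g, gle := hgle, z := z, zn := hz1, gz := hgz1,
           W := W, Wb := hWb, u := uu, un := hun, gu := hgu }, r * ε₀, by positivity, hWn, hWd, hpC⟩

/-- **Q1, in full.** Let `X` be a Banach space (real or complex) that fails the Radon-Nikodym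
property. Then there is a Banach space `Y` linearly homeomorphic to `X`, that is, `X` with an
equivalent norm, for which the set `NA(Y, Y)` of norm-attaining operators is not dense in the space
of bounded operators on `Y`. -/
theorem result {𝕜 : Type v} [RCLike 𝕜] {X : Type u} [NormedAddCommGroup X] [NormedSpace 𝕜 X]
    [NormedSpace ℝ X] [IsScalarTower ℝ 𝕜 X] [CompleteSpace X] (hX : ¬ HasRNP X) :
    ∃ (Y : Type u) (_ : NormedAddCommGroup Y) (_ : NormedSpace 𝕜 Y) (_ : CompleteSpace Y),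
      Nonempty (X ≃L[𝕜] Y) ∧ ¬ Dense (NA 𝕜 Y) := by
  obtain ⟨D, ε, hε, hWn, hWd, hC⟩ := exists_data (𝕜 := 𝕜) hX
  refine ⟨RS D, inferInstance, inferInstance, ?_, ⟨eqv D⟩, ?_⟩
  · exact (eqv D).isUniformEmbedding.completeSpace_congr (eqv D).surjective |>.1 inferInstance
  intro hdense
  set TY : RS D →L[𝕜] RS D := ((eqv D : X →L[𝕜] RS D).comp D.T).comp ((eqv D).symm : RS D →L[𝕜] X) with hTY
  set δ : ℝ := min 1 (ε / 400000) with hδ
  have hδp : 0 < δ := by positivity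
  obtain ⟨SY, hSY, hd⟩ := Metric.dense_iff.1 hdense TY δ hδp
  obtain ⟨y, hy, hyS⟩ := hd
  rw [Metric.mem_ball, dist_eq_norm] at hSY
  obtain ⟨FY, hF1, hF2⟩ := exists_dual_vector'' 𝕜 (SY y)
  have hNe : ∀ x, D.N ((eqv D).symm x) = ‖x‖ := fun x => by
    rw [← eqv_norm, ContinuousLinearEquiv.apply_symm_apply]
  refine D.no_NA (ε := ε) (δ := δ) (τ := ‖SY‖) (S := (((eqv D).symm : RS D →L[𝕜] X).comp SY).comp (eqv D : X →L[𝕜] RS D))
    (b := (eqv D).symm y) (F := FY.comp (eqv D : X →L[𝕜] RS D)) hδp.le (min_le_left _ _) ?_ ?_ ?_ ?_ ?_ hWn hε hδp ?_ hWd hC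
  · intro x
    have h1 : (((eqv D).symm : RS D →L[𝕜] X).comp SY).comp (eqv D : X →L[𝕜] RS D) x - D.T x
        = (eqv D).symm ((SY - TY) (eqv D x)) := by
      rw [sub_apply, map_sub, hTY]
      simp
    rw [h1, hNe, ← eqv_norm]
    refine ((SY - TY).le_opNorm _).trans ?_
    exact mul_le_mul_of_nonneg_right hSY.le (norm_nonneg _)
  · intro x
    change D.N ((eqv D).symm (SY (eqv D x))) ≤ _
    rw [hNe, ← eqv_norm]
    exact SY.le_opNorm _
  · rw [hNe, hy]
  · intro x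
    change ‖FY (eqv D x)‖ ≤ _
    rw [← eqv_norm]
    refine (FY.le_opNorm _).trans ?_
    exact mul_le_of_le_one_left (norm_nonneg _) hF1
  · change FY (eqv D ((eqv D).symm (SY (eqv D ((eqv D).symm y))))) = _
    rw [ContinuousLinearEquiv.apply_symm_apply, ContinuousLinearEquiv.apply_symm_apply, hF2, hyS]
  · have := min_le_right 1 (ε / 400000)
    linarith

end Pool.Agent.Results.MP_af317d_an.RenormNonRNP
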